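import Pool.Agent.H82.BO.Targets

/-!
Row CHG: Chernoff and the union bound.
-/

set_option autoImplicit false

namespace Pool.Agent.H61.BO

open Finset Pool.Agent.H82.BO
open Pool.Agent.H15.FLC (Half Violates InsC CovC KerC ErrC BRC ERC KRC BadC)

theorem chg_union {J δ : Type} [Fintype J] [Finite δ] (N : ℕ) (P : J → δ → Prop)
    (h : ∀ j, N * Nat.card {d // P j d} ≤ Nat.card δ) :
    N * Nat.card {d // ∃ j, P j d} ≤ Fintype.card J * Nat.card δ := by
  classical
  have : Fintype δ := Fintype.ofFinite δ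
  have h1 : Nat.card {d // ∃ j, P j d} ≤ ∑ j, Nat.card {d // P j d} := by
    rw [Nat.card_eq_fintype_card, Fintype.card_subtype]
    have h2 : (univ.filter fun d => ∃ j, P j d) = univ.biUnion fun j => univ.filter (P j) := by
      ext d
      simp
    rw [h2]
    refine card_biUnion_le.trans (le_of_eq ?_)
    refine sum_congr rfl fun j _ => ?_
    rw [Nat.card_eq_fintype_card, Fintype.card_subtype]
  refine (Nat.mul_le_mul_left N h1).trans ?_
  rw [mul_sum]
  refine (sum_le_sum fun j _ => h j).trans (le_of_eq ?_)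
  rw [sum_const, card_univ, smul_eq_mul]

theorem chg_prod {α β : Type} [Finite α] [Finite β] (N : ℕ) (P : α → Prop) (Q : α → β → Prop)
    (h1 : N * Nat.card {a // P a} ≤ Nat.card α)
    (h2 : ∀ a, ¬ P a → N * Nat.card {b // Q a b} ≤ Nat.card β) :
    N * Nat.card {p : α × β // P p.1 ∨ (¬ P p.1 ∧ Q p.1 p.2)} ≤ 2 * Nat.card (α × β) := by
  classical
  have : Fintype α := Fintype.ofFinite α
  have : Fintype β := Fintype.ofFinite β
  have e1 : {p : α × β // P p.1 ∨ (¬ P p.1 ∧ Q p.1 p.2)} ≃
      (Σ a : α, {b : β // P a ∨ (¬ P a ∧ Q a b)}) :=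
    { toFun := fun p => ⟨p.1.1, p.1.2, p.2⟩
      invFun := fun p => ⟨(p.1, p.2.1), p.2.2⟩
      left_inv := fun p => rfl
      right_inv := fun p => rfl }
  rw [Nat.card_congr e1, Nat.card_sigma, mul_sum]
  have h3 : ∀ a : α, N * Nat.card {b : β // P a ∨ (¬ P a ∧ Q a b)} ≤
      (if P a then N * Nat.card β else 0) + Nat.card β := by
    intro a
    by_cases ha : P a
    · rw [if_pos ha]
      have : Nat.card {b : β // P a ∨ (¬ P a ∧ Q a b)} ≤ Nat.card β :=
        Finite.card_subtype_le _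
      have := Nat.mul_le_mul_left N this
      omega
    · rw [if_neg ha, zero_add]
      refine le_trans (Nat.mul_le_mul_left N ?_) (h2 a ha)
      refine Nat.card_mono (Set.toFinite _) ?_
      intro b hb
      rcases hb with hb | hb
      · exact absurd hb ha
      · exact hb.2
  refine (sum_le_sum fun a _ => h3 a).trans ?_
  rw [sum_add_distrib, ← sum_filter, sum_const, sum_const, smul_eq_mul, smul_eq_mul,
    Nat.card_prod]
  have h4 : (univ.filter fun a => P a).card = Nat.card {a // P a} := by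
    rw [Nat.card_eq_fintype_card, Fintype.card_subtype]
  have h5 : (univ : Finset α).card = Nat.card α := by
    rw [Nat.card_eq_fintype_card, card_univ]
  rw [h4, h5]
  have h6 : Nat.card {a // P a} * (N * Nat.card β) ≤ Nat.card α * Nat.card β := by
    calc Nat.card {a // P a} * (N * Nat.card β) = N * Nat.card {a // P a} * Nat.card β := by ring
      _ ≤ _ := Nat.mul_le_mul_right _ h1
  calc _ ≤ Nat.card α * Nat.card β + Nat.card α * Nat.card β := Nat.add_le_add_right h6 _
    _ = _ := by ring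

theorem pf_CHG (hCHU : Pool.Agent.H53.UK.T_CHU) (hTOU : Pool.Agent.H53.UK.T_TOU)
    (hCHD : T_CHD) : T_CHG := by
  classical
  intro ε n t k l M μ hε hε1 ht hnt hM hMμ
  have ht0 : (1 : ℝ) ≤ t := by exact_mod_cast ht
  have h2k : (0 : ℝ) < 2 ^ k := by positivity
  have h2l : (0 : ℝ) < 2 ^ l := by positivity
  obtain ⟨P, hP⟩ : ∃ P : (Fin M → Half n k) → Prop, ∀ C, P C ↔ ∃ x,
      (Nat.card {i // Violates (C i) x} : ℝ) < (1 - ε / 2) * M / 2 ^ k := ⟨_, fun _ => Iff.rfl⟩
  obtain ⟨Q, hQ⟩ : ∃ Q : (Fin M → Half n k) → (Fin M × Fin μ → Half n l) → Prop,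
      ∀ C D, Q C D ↔ ∃ x y, (Nat.card {c // False2 ((C, D) : Formula n k l M μ) c x y} : ℝ) <
        (1 - ε) * (M * μ) / 2 ^ (k + l) := ⟨_, fun _ _ => Iff.rfl⟩
  -- the clauses in x
  have hA : 2 ^ (t + 1) * Nat.card {C // P C} ≤ Nat.card (Fin M → Half n k) := by
    have h1 := hCHU (ε / 2) n (t + 1) k M (by linarith) (by linarith) (by omega) (by omega) (by
      have h3 : 64 * (t : ℝ) * 2 ^ k ≤ ε ^ 2 * M := hM
      have h4 : 16 * ((t : ℝ) + 1) * 2 ^ k ≤ 64 * t * 2 ^ k := by
        apply mul_le_mul_of_nonneg_right _ h2k.le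
        linarith
      push_cast
      have h5 : (ε / 2) ^ 2 * M = ε ^ 2 * M / 4 := by ring
      rw [h5, le_div_iff₀ (by norm_num)]
      linarith)
    refine le_trans (le_of_eq ?_) h1
    congr 1
    refine Nat.card_congr (Equiv.subtypeEquivRight fun C => ?_)
    rw [hP]
    refine exists_congr fun x => ?_
    have h2 : Nat.card {i // Violates (C i) x} =
        Nat.card {j // Pool.Agent.H53.MC.Falsified (Pool.Agent.H53.UK.toCl (C j)) x} := by
      refine Nat.card_congr (Equiv.subtypeEquivRight fun i => ?_)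
      exact (hTOU.1 (C i) x).symm
    rw [h2]
  -- the clauses in y
  have hB : ∀ C, ¬ P C → 2 ^ (t + 1) * Nat.card {D // Q C D} ≤
      Nat.card (Fin M × Fin μ → Half n l) := by
    intro C hC
    rw [hP] at hC
    push Not at hC
    obtain ⟨A, hAdef⟩ : ∃ A : (Fin n → Bool) → Finset (Fin M),
        ∀ x, A x = univ.filter fun i => Violates (C i) x := ⟨_, fun _ => rfl⟩
    have hAc : ∀ x, (1 - ε / 2) * M / 2 ^ k ≤ ((A x).card : ℝ) := by
      intro x
      have h1 := hC x
      rw [Nat.card_eq_fintype_card, Fintype.card_subtype] at h1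
      rw [hAdef]
      convert h1
    have hM0 : (0 : ℝ) ≤ M := Nat.cast_nonneg _
    have hμ0 : (0 : ℝ) ≤ μ := Nat.cast_nonneg _
    have hu := chg_union (J := (Fin n → Bool) × (Fin n → Bool)) (2 ^ (3 * t + 1))
      (fun j (D : Fin M × Fin μ → Half n l) =>
        (Nat.card {c : Fin M × Fin μ // c.1 ∈ A j.1 ∧ Violates (D c) j.2} : ℝ) <
        (1 - ε / 2) * ((A j.1).card * μ) / 2 ^ l) (fun j => by
          refine hCHD ε n t l M μ j.2 (A j.1) hε hε1 ht ?_
          have h1 := hAc j.1
          have h2 : (1 / 2 : ℝ) * M / 2 ^ k ≤ (A j.1).card := by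
            refine le_trans ?_ h1
            apply div_le_div_of_nonneg_right _ h2k.le
            apply mul_le_mul_of_nonneg_right _ hM0
            linarith
          rw [pow_add] at hMμ
          have h3 : 32 * (t : ℝ) * 2 ^ l * 2 ^ k * 2 ≤ ε ^ 2 * (M * μ) := by
            calc 32 * (t : ℝ) * 2 ^ l * 2 ^ k * 2 = 64 * t * (2 ^ k * 2 ^ l) := by ring
              _ ≤ _ := hMμ
          have h4 : 32 * (t : ℝ) * 2 ^ l ≤ ε ^ 2 * (M * μ) / (2 ^ k * 2) := by
            rw [le_div_iff₀ (by positivity)]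
            linarith
          refine h4.trans ?_
          have h5 : ε ^ 2 * ((M : ℝ) * μ) / (2 ^ k * 2) = ε ^ 2 * ((1 / 2 : ℝ) * M / 2 ^ k * μ) := by
            field_simp
          rw [h5]
          apply mul_le_mul_of_nonneg_left _ (by positivity)
          exact mul_le_mul_of_nonneg_right h2 hμ0)
    have hle : Nat.card {D // Q C D} ≤ Nat.card {D : Fin M × Fin μ → Half n l //
        ∃ j : (Fin n → Bool) × (Fin n → Bool),
        (Nat.card {c : Fin M × Fin μ // c.1 ∈ A j.1 ∧ Violates (D c) j.2} : ℝ) <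
        (1 - ε / 2) * ((A j.1).card * μ) / 2 ^ l} := by
      refine Nat.card_mono (Set.toFinite _) ?_
      intro D hD
      obtain ⟨x, y, hxy⟩ := (hQ C D).1 hD
      refine ⟨(x, y), ?_⟩
      show (Nat.card {c : Fin M × Fin μ // c.1 ∈ A x ∧ Violates (D c) y} : ℝ) <
        (1 - ε / 2) * ((A x).card * μ) / 2 ^ l
      have h1 : Nat.card {c : Fin M × Fin μ // c.1 ∈ A x ∧ Violates (D c) y} =
          Nat.card {c // False2 ((C, D) : Formula n k l M μ) c x y} := by
        refine Nat.card_congr (Equiv.subtypeEquivRight fun c => ?_)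
        rw [hAdef]
        simp only [mem_filter, mem_univ, true_and]
        rfl
      rw [h1]
      refine lt_of_lt_of_le hxy ?_
      have h2 := hAc x
      have h3 : (1 - ε) ≤ (1 - ε / 2) * (1 - ε / 2) := by nlinarith
      calc (1 - ε) * ((M : ℝ) * μ) / 2 ^ (k + l)
          ≤ (1 - ε / 2) * (1 - ε / 2) * ((M : ℝ) * μ) / 2 ^ (k + l) := by
            apply div_le_div_of_nonneg_right _ (by positivity)
            exact mul_le_mul_of_nonneg_right h3 (by positivity)
        _ = (1 - ε / 2) * ((1 - ε / 2) * M / 2 ^ k * μ) / 2 ^ l := by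
            rw [pow_add]
            field_simp
        _ ≤ _ := by
            apply div_le_div_of_nonneg_right _ h2l.le
            apply mul_le_mul_of_nonneg_left _ (by linarith)
            exact mul_le_mul_of_nonneg_right h2 hμ0
    have hc : Fintype.card ((Fin n → Bool) × (Fin n → Bool)) = 2 ^ (2 * n) := by
      simp [two_mul, pow_add]
    rw [hc] at hu
    have h5 := (Nat.mul_le_mul_left (2 ^ (3 * t + 1)) hle).trans hu
    have h6 : 2 ^ (2 * n) ≤ 2 ^ (2 * t) := Nat.pow_le_pow_right (by norm_num) (by omega)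
    have h7 := h5.trans (Nat.mul_le_mul_right _ h6)
    have h8 : 2 ^ (3 * t + 1) = 2 ^ (2 * t) * 2 ^ (t + 1) := by
      rw [← pow_add]
      congr 1
      omega
    rw [h8, mul_assoc] at h7
    exact Nat.le_of_mul_le_mul_left h7 (by positivity)
  have hfin := chg_prod (2 ^ (t + 1)) P Q hA hB
  have hle : Nat.card {F : Formula n k l M μ //
      ∃ x y, (Nat.card {c // False2 F c x y} : ℝ) < (1 - ε) * (M * μ) / 2 ^ (k + l)} ≤
      Nat.card {p : (Fin M → Half n k) × (Fin M × Fin μ → Half n l) //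
        P p.1 ∨ (¬ P p.1 ∧ Q p.1 p.2)} := by
    refine Nat.card_mono (Set.toFinite _) ?_
    intro F hF
    show P F.1 ∨ (¬ P F.1 ∧ Q F.1 F.2)
    by_cases h : P F.1
    · exact Or.inl h
    · exact Or.inr ⟨h, (hQ _ _).2 hF⟩
  have h9 := (Nat.mul_le_mul_left (2 ^ (t + 1)) hle).trans hfin
  have h10 : 2 * (2 ^ t * Nat.card {F : Formula n k l M μ //
      ∃ x y, (Nat.card {c // False2 F c x y} : ℝ) < (1 - ε) * (M * μ) / 2 ^ (k + l)}) ≤
      2 * Nat.card (Formula n k l M μ) := by
    refine le_trans (le_of_eq ?_) h9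
    rw [pow_succ]
    ring
  exact Nat.le_of_mul_le_mul_left h10 (by norm_num)

end Pool.Agent.H61.BO
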